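import Pool.Agent.H26Z.MfExist
import Pool.Agent.H26Z.MfKron

/-! There is a Hecke-Maass cusp form of level one none of whose quadratic twists has a non-zero
central value, so no positive proportion of twists is non-vanishing. -/

set_option autoImplicit false

namespace Pool.Agent.Results.MP_5f72fe_nt.AWeakGoldfeldFails

open Pool.Agent.H26Z.Mf Filter Topology

theorem result :
    ∃ (U : ℂ → ℂ) (ev : ℂ) (lam : ℕ → ℂ), IsHeckeMaass U ev lam ∧ IsOddForm U ∧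
      (∀ D : ℤ, IsFundDisc D → ∃ L : ℂ → ℂ, IsTwistL lam (fun p => (kron D p : ℂ)) L) ∧
      (∀ x : ℝ, countNonvanishing lam x = 0) ∧
      ¬∃ c : ℝ, 0 < c ∧ ∀ᶠ x : ℝ in atTop, c * x ≤ (countNonvanishing lam x : ℝ) := by
  obtain ⟨U, ev, lam, h, ho⟩ := exists_odd_form
  have h1 : ∀ D : ℤ, IsFundDisc D →
      ∃ L : ℂ → ℂ, IsTwistL lam (fun p => (kron D p : ℂ)) L ∧ L (1 / 2) = 0 := by
    intro D hD
    obtain ⟨q, _, χ, hχ, hχ2, e⟩ := hD.exists_char
    obtain ⟨L, hL, h0⟩ := twist_vanishes h ho hχ hχ2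
    exact ⟨L, hL.congr e, h0⟩
  have h2 : ∀ x : ℝ, countNonvanishing lam x = 0 := by
    intro x
    refine (congrArg Set.ncard (Set.eq_empty_of_forall_notMem ?_)).trans (Set.ncard_empty ℤ)
    rintro D ⟨hD, -, L, hL, hne⟩
    obtain ⟨L', hL', h0⟩ := h1 D hD
    exact hne (hL.unique hL' ▸ h0)
  refine ⟨U, ev, lam, h, ho, fun D hD => (h1 D hD).imp fun _ hL => hL.1, h2, ?_⟩
  rintro ⟨c, hc, hev⟩
  obtain ⟨x, hx1, hx2⟩ := (hev.and (eventually_gt_atTop 0)).exists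
  rw [h2, Nat.cast_zero] at hx1
  exact absurd (mul_pos hc hx2) (not_lt.2 hx1)

end Pool.Agent.Results.MP_5f72fe_nt.AWeakGoldfeldFails
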